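import Mathlib

/-!
Quasi-equivalence of bases in closed subspaces of `s`: definitions.

Part 1: concrete definitions (the space `s`, closed subspaces, Schauder bases, quasi-equivalence,
the space `s(X)` of rapidly decreasing `X`-valued sequences).
Part 2: abstract graded spaces `(X, N)` used in the proof.
-/

open Filter Topology

namespace QE

/-! ### Part 1: concrete definitions -/

/-- The norm `|x|_q = (∑ |x_n|^2 n^{2q})^{1/2}` of `s`; coordinates are indexed by `n = 0, 1, 2, ...`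
and the `n`-th one carries the weight `n + 1`. -/
noncomputable def nrm (q : ℕ) (x : ℕ → ℂ) : ℝ :=
  Real.sqrt (∑' n : ℕ, ‖x n‖ ^ 2 * ((n : ℝ) + 1) ^ (2 * q))

/-- `x` lies in `s`: all the series defining the norms converge. -/
def InS (x : ℕ → ℂ) : Prop := ∀ q : ℕ, Summable fun n : ℕ => ‖x n‖ ^ 2 * ((n : ℝ) + 1) ^ (2 * q)

/-- `u k → x` in the Frechet space `s` (all norms of the difference tend to `0`). -/
def Conv (u : ℕ → ℕ → ℂ) (x : ℕ → ℂ) : Prop :=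
  ∀ q : ℕ, Tendsto (fun k => nrm q (u k - x)) atTop (𝓝 0)

/-- `X` is a closed linear subspace of `s`. -/
structure ClosedSub (X : Submodule ℂ (ℕ → ℂ)) : Prop where
  inS : ∀ x ∈ X, InS x
  closed : ∀ (u : ℕ → ℕ → ℂ) (x : ℕ → ℂ), (∀ k, u k ∈ X) → InS x → Conv u x → x ∈ X

/-- `f` is a (Schauder) basis of `X`. -/
structure IsBasis (X : Submodule ℂ (ℕ → ℂ)) (f : ℕ → ℕ → ℂ) : Prop where
  mem : ∀ j, f j ∈ X
  exp : ∀ x ∈ X, ∃! c : ℕ → ℂ, Conv (fun n => ∑ j ∈ Finset.range n, c j • f j) x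

/-- The linear bijection `T : X → X` is an isomorphism of Frechet spaces: `T` and its inverse are
continuous (every norm of the value is dominated by a norm of the argument). -/
def IsIso (X : Submodule ℂ (ℕ → ℂ)) (T : X ≃ₗ[ℂ] X) : Prop :=
  (∀ p, ∃ q, ∃ C : ℝ, ∀ x : X, nrm p (T x : ℕ → ℂ) ≤ C * nrm q (x : ℕ → ℂ)) ∧
  (∀ p, ∃ q, ∃ C : ℝ, ∀ x : X, nrm p (T.symm x : ℕ → ℂ) ≤ C * nrm q (x : ℕ → ℂ))

/-- The bases `f` and `g` of `X` are quasi-equivalent: `f j ↦ lam j • g (σ j)` extends to an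
isomorphism of `X`, for some bijection `σ` and nonzero scalars `lam j`. -/
def QuasiEquiv (X : Submodule ℂ (ℕ → ℂ)) (f g : ℕ → ℕ → ℂ) : Prop :=
  ∃ (σ : ℕ ≃ ℕ) (lam : ℕ → ℂ) (T : X ≃ₗ[ℂ] X), (∀ j, lam j ≠ 0) ∧ IsIso X T ∧
    ∀ j (h : f j ∈ X), (T ⟨f j, h⟩ : ℕ → ℂ) = lam j • g (σ j)

/-- The norm `(∑_i |ξ_i|_q^2 i^{2q})^{1/2}` of a sequence `ξ = (ξ_i)` of elements of `s`
(`i = 0, 1, 2, ...` carries the weight `i + 1`). -/
noncomputable def nrm2 (q : ℕ) (ξ : ℕ → ℕ → ℂ) : ℝ :=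
  Real.sqrt (∑' i : ℕ, nrm q (ξ i) ^ 2 * ((i : ℝ) + 1) ^ (2 * q))

end QE
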