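import Mathlib

/-!
Quasi-equivalence of bases: abstract graded Frechet spaces `(X, N)`, `N : ℕ → Seminorm ℂ X`.
-/

open Filter Topology

namespace QE

variable {X : Type*} [AddCommGroup X] [Module ℂ X]

/-- Graded Frechet space with log-convex increasing norms. -/
structure Gr (N : ℕ → Seminorm ℂ X) : Prop where
  mono : ∀ q x, N q x ≤ N (q + 1) x
  pos : ∀ x, N 0 x = 0 → x = 0
  lc : ∀ q x, N (q + 1) x ^ 2 ≤ N q x * N (q + 2) x
  comp : ∀ u : ℕ → X, (∀ q, Summable fun i => N q (u i)) →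
    ∃ y, ∀ q, Tendsto (fun n => N q (y - ∑ i ∈ Finset.range n, u i)) atTop (𝓝 0)

/-- Strong nuclearity (the first `k` coordinates of a subspace of `s`). -/
def Nuc (N : ℕ → Seminorm ℂ X) : Prop :=
  ∀ k : ℕ, ∃ L : X →ₗ[ℂ] (Fin k → ℂ), ∀ x, L x = 0 → ∀ q v : ℕ,
    ((k : ℝ) + 1) ^ v * N q x ≤ N (q + v) x

/-- Absolute basis with coefficient functionals `c`. -/
structure AB (N : ℕ → Seminorm ℂ X) (b : ℕ → X) (c : ℕ → X →ₗ[ℂ] ℂ) : Prop where
  dual : ∀ i j, c i (b j) = if i = j then 1 else 0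
  bdd : ∀ p, ∃ q, ∃ C : ℝ, ∀ i x, ‖c i x‖ * N p (b i) ≤ C * N q x
  nuc : ∃ v, Summable fun i => N 0 (b i) / N v (b i)
  exp : ∀ x q, Tendsto (fun n => N q (x - ∑ i ∈ Finset.range n, c i x • b i)) atTop (𝓝 0)

/-- The ratio `N q x / N 0 x`. -/
noncomputable def R (N : ℕ → Seminorm ℂ X) (q : ℕ) (x : X) : ℝ := N q x / N 0 x

/-- `x` and `y` are near (up to scalars) with the shift function `σ` and the constants `C`. -/
def Near (N : ℕ → Seminorm ℂ X) (σ : ℕ → ℕ) (C : ℕ → ℝ) (x y : X) : Prop :=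
  ∀ p, R N p y ≤ C p * R N (σ p) x ∧ R N p x ≤ C p * R N (σ p) y

/-- Rich families: every member has (uniformly) at least as many near members as there are
members of comparable or smaller ratio. -/
def Rich (N : ℕ → Seminorm ℂ X) (b : ℕ → X) : Prop :=
  ∃ v : ℕ, ∀ (q : ℕ) (C0 : ℝ), ∃ (σ : ℕ → ℕ) (C : ℕ → ℝ), ∀ (i : ℕ) (F : Finset ℕ),
    (∀ j ∈ F, R N v (b j) ≤ C0 * R N q (b i)) →
    ∃ G : Finset ℕ, F.card ≤ G.card ∧ ∀ j ∈ G, Near N σ C (b i) (b j)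

/-- Schauder basis of `(X, N)`. -/
def Schauder (N : ℕ → Seminorm ℂ X) (f : ℕ → X) : Prop :=
  ∀ x, ∃! c : ℕ → ℂ, ∀ q, Tendsto (fun n => N q (x - ∑ j ∈ Finset.range n, c j • f j)) atTop (𝓝 0)

end QE
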