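import Pool.Agent.Lib_helper79.QE.Defs
import Pool.Agent.Lib_helper79.QE.Abs

/-!
The norms of `s` satisfy the triangle inequality on `s`; the seminorms on a closed subspace.
-/

open Filter Topology

namespace QE

/-- the weighted embedding into `ℓ²` -/
noncomputable def emb (q : ℕ) (x : ℕ → ℂ) (n : ℕ) : ℂ := x n * (((n : ℝ) + 1) ^ q : ℝ)

lemma norm_emb_sq (q : ℕ) (x : ℕ → ℂ) (n : ℕ) :
    ‖emb q x n‖ ^ 2 = ‖x n‖ ^ 2 * ((n : ℝ) + 1) ^ (2 * q) := by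
  unfold emb
  rw [norm_mul, mul_pow, Complex.norm_real, Real.norm_of_nonneg (by positivity), ← pow_mul,
    mul_comm q 2]

lemma memlp_emb {x : ℕ → ℂ} (hx : InS x) (q : ℕ) : Memℓp (emb q x) 2 := by
  apply memℓp_gen
  have h := hx q
  refine h.congr ?_
  intro n
  rw [← norm_emb_sq]
  norm_num

/-- the embedding as an element of `ℓ²` -/
noncomputable def embL {x : ℕ → ℂ} (hx : InS x) (q : ℕ) : lp (fun _ : ℕ => ℂ) 2 :=
  ⟨emb q x, memlp_emb hx q⟩

lemma nrm_eq_norm {x : ℕ → ℂ} (hx : InS x) (q : ℕ) : nrm q x = ‖embL hx q‖ := by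
  rw [lp.norm_eq_tsum_rpow (by norm_num)]
  unfold nrm
  rw [Real.sqrt_eq_rpow]
  have : (2 : ENNReal).toReal = 2 := by norm_num
  rw [this]
  congr 1
  apply tsum_congr
  intro n
  rw [← norm_emb_sq]
  simp only [embL]
  norm_num

lemma InS.add {x y : ℕ → ℂ} (hx : InS x) (hy : InS y) : InS (x + y) := by
  intro q
  have h : Memℓp (emb q (x + y)) 2 := by
    have := (memlp_emb hx q).add (memlp_emb hy q)
    have e : emb q (x + y) = emb q x + emb q y := by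
      funext n; simp [emb, add_mul]
    rw [e]; exact this
  have h2 := h.summable (by norm_num)
  refine h2.congr ?_
  intro n
  rw [← norm_emb_sq]
  norm_num

lemma InS.smul {x : ℕ → ℂ} (a : ℂ) (hx : InS x) : InS (a • x) := by
  intro q
  have := (hx q).mul_left (‖a‖ ^ 2)
  refine this.congr ?_
  intro n
  simp [mul_pow]
  ring

lemma InS.zero : InS 0 := by
  intro q
  simp [summable_zero]

lemma nrm_nonneg (q : ℕ) (x : ℕ → ℂ) : 0 ≤ nrm q x := Real.sqrt_nonneg _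

lemma nrm_zero (q : ℕ) : nrm q 0 = 0 := by simp [nrm]

lemma nrm_smul (q : ℕ) (a : ℂ) (x : ℕ → ℂ) : nrm q (a • x) = ‖a‖ * nrm q x := by
  unfold nrm
  have : (fun n : ℕ => ‖(a • x) n‖ ^ 2 * ((n : ℝ) + 1) ^ (2 * q)) =
      fun n : ℕ => ‖a‖ ^ 2 * (‖x n‖ ^ 2 * ((n : ℝ) + 1) ^ (2 * q)) := by
    funext n
    simp [mul_pow]
    ring
  rw [this, tsum_mul_left, Real.sqrt_mul (by positivity), Real.sqrt_sq (norm_nonneg a)]

lemma nrm_add_le {x y : ℕ → ℂ} (hx : InS x) (hy : InS y) (q : ℕ) :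
    nrm q (x + y) ≤ nrm q x + nrm q y := by
  rw [nrm_eq_norm hx, nrm_eq_norm hy, nrm_eq_norm (hx.add hy)]
  have : embL (hx.add hy) q = embL hx q + embL hy q := by
    apply Subtype.ext
    show emb q (x + y) = _
    rw [lp.coeFn_add]
    funext n
    simp [emb, embL, add_mul]
  rw [this]
  exact norm_add_le _ _

/-- The `q`-th norm of `s`, restricted to a closed subspace `Y`. -/
noncomputable def nrmSem {Y : Submodule ℂ (ℕ → ℂ)} (hY : ClosedSub Y) (q : ℕ) : Seminorm ℂ Y :=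
  Seminorm.of (fun x => nrm q (x : ℕ → ℂ))
    (fun x y => nrm_add_le (hY.inS _ x.2) (hY.inS _ y.2) q)
    (fun a x => nrm_smul q a _)

lemma nrmSem_apply {Y : Submodule ℂ (ℕ → ℂ)} (hY : ClosedSub Y) (q : ℕ) (x : Y) :
    nrmSem hY q x = nrm q (x : ℕ → ℂ) := rfl

/-- `s(X)`: the sequences `(ξ_i)` in `X` with `∑_i |ξ_i|_q^2 (i+1)^(2q) < ∞` for all `q`. -/
noncomputable def sSub {X : Type*} [AddCommGroup X] [Module ℂ X] (N : ℕ → Seminorm ℂ X) :
    Submodule ℂ (ℕ → X) where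
  carrier := {ξ | ∀ q : ℕ, Summable fun i : ℕ => N q (ξ i) ^ 2 * ((i : ℝ) + 1) ^ (2 * q)}
  zero_mem' := by
    intro q
    simp [summable_zero]
  add_mem' := by
    intro ξ η hξ hη q
    have h := ((hξ q).add (hη q)).mul_left 2
    refine Summable.of_nonneg_of_le (fun i => by positivity) (fun i => ?_) h
    have h1 : N q ((ξ + η) i) ≤ N q (ξ i) + N q (η i) := map_add_le_add _ _ _
    have h2 : N q ((ξ + η) i) ^ 2 ≤ 2 * (N q (ξ i) ^ 2 + N q (η i) ^ 2) := by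
      have h0 : 0 ≤ N q ((ξ + η) i) := apply_nonneg _ _
      nlinarith [sq_nonneg (N q (ξ i) - N q (η i)), apply_nonneg (N q) (ξ i),
        apply_nonneg (N q) (η i)]
    have h3 : (0 : ℝ) ≤ ((i : ℝ) + 1) ^ (2 * q) := by positivity
    calc N q ((ξ + η) i) ^ 2 * ((i : ℝ) + 1) ^ (2 * q)
        ≤ 2 * (N q (ξ i) ^ 2 + N q (η i) ^ 2) * ((i : ℝ) + 1) ^ (2 * q) :=
          mul_le_mul_of_nonneg_right h2 h3
      _ = _ := by ring
  smul_mem' := by
    intro a ξ hξ q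
    have := (hξ q).mul_left (‖a‖ ^ 2)
    refine this.congr ?_
    intro i
    simp only [Pi.smul_apply, map_smul_eq_mul]
    ring

/-- the norms of `s(X)` -/
noncomputable def N2 {X : Type*} [AddCommGroup X] [Module ℂ X] (N : ℕ → Seminorm ℂ X) (q : ℕ)
    (ξ : ℕ → X) : ℝ :=
  Real.sqrt (∑' i : ℕ, N q (ξ i) ^ 2 * ((i : ℝ) + 1) ^ (2 * q))

/-- `X` is isomorphic to `s(X)`. -/
def SStable {X : Type*} [AddCommGroup X] [Module ℂ X] (N : ℕ → Seminorm ℂ X) : Prop :=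
  ∃ Φ : sSub N ≃ₗ[ℂ] X,
    (∀ p, ∃ q, ∃ C : ℝ, ∀ ξ : sSub N, N p (Φ ξ) ≤ C * N2 N q ξ) ∧
    (∀ p, ∃ q, ∃ C : ℝ, ∀ ξ : sSub N, N2 N p ξ ≤ C * N q (Φ ξ))

end QE
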