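import Pool.Agent.Lib_helper79.QE.Core4
import Pool.Agent.Lib_helper53.QE.K1
import Pool.Agent.Lib_helper53.QE.K3
import Pool.Agent.Lib_helper7.QE.K2

/-!
Assembly: from Schauder bases of closed subspaces of `s` to quasi-equivalence.
-/

open Filter Topology

namespace QE

variable {X : Type*} [AddCommGroup X] [Module ℂ X] {N : ℕ → Seminorm ℂ X}

/-- Bounded isomorphisms of a graded space carrying one family to multiples of another. -/
def QEq (N : ℕ → Seminorm ℂ X) (b b' : ℕ → X) : Prop :=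
  ∃ (σ : ℕ ≃ ℕ) (lam : ℕ → ℂ) (T : X ≃ₗ[ℂ] X), (∀ k, lam k ≠ 0) ∧
      (∀ p, ∃ q, ∃ C : ℝ, ∀ x, N p (T x) ≤ C * N q x) ∧
      (∀ p, ∃ q, ∃ C : ℝ, ∀ x, N p (T.symm x) ≤ C * N q x) ∧
      ∀ k, T (b k) = lam k • b' (σ k)

lemma bounded_comp {S T : X → X} (hS : ∀ p, ∃ q, ∃ C : ℝ, ∀ x, N p (S x) ≤ C * N q x)
    (hT : ∀ p, ∃ q, ∃ C : ℝ, ∀ x, N p (T x) ≤ C * N q x) :
    ∀ p, ∃ q, ∃ C : ℝ, ∀ x, N p (S (T x)) ≤ C * N q x := by
  intro p
  obtain ⟨q, C, h⟩ := hS p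
  obtain ⟨r, C', h'⟩ := hT q
  refine ⟨r, |C| * C', fun x => (h _).trans ?_⟩
  calc C * N q (T x) ≤ |C| * N q (T x) := mul_le_mul_of_nonneg_right (le_abs_self _) (apply_nonneg _ _)
    _ ≤ |C| * (C' * N r x) := mul_le_mul_of_nonneg_left (h' x) (abs_nonneg _)
    _ = _ := by ring

lemma QEq.join {b f g : ℕ → X} (hf : QEq N f b) (hg : QEq N g b) : QEq N f g := by
  obtain ⟨σ, lam, T, hlam, hT, hTs, hTb⟩ := hf
  obtain ⟨τ, mu, S, hmu, hS, hSs, hSb⟩ := hg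
  refine ⟨σ.trans τ.symm, fun k => lam k * (mu (τ.symm (σ k)))⁻¹, T.trans S.symm, ?_, ?_, ?_, ?_⟩
  · intro k
    exact mul_ne_zero (hlam k) (inv_ne_zero (hmu _))
  · exact bounded_comp (S := S.symm) (T := T) hSs hT
  · exact bounded_comp (S := T.symm) (T := S) hTs hS
  · intro k
    show S.symm (T (f k)) = _
    rw [LinearEquiv.symm_apply_eq, hTb, map_smul, Equiv.trans_apply, hSb, smul_smul,
      Equiv.apply_symm_apply, mul_assoc, inv_mul_cancel₀ (hmu _), mul_one]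

/-- A Schauder basis of a closed subspace of `s` is an absolute basis. -/
theorem basis_AB {Y : Submodule ℂ (ℕ → ℂ)} (hY : ClosedSub Y) {f : ℕ → ℕ → ℂ} (hf : IsBasis Y f) :
    ∃ c, AB (nrmSem hY) (fun j => (⟨f j, hf.mem j⟩ : Y)) c := by
  have hconv : ∀ (x : Y) (c : ℕ → ℂ), (Conv (fun n => ∑ j ∈ Finset.range n, c j • f j) x ↔
      ∀ q, Tendsto (fun n => nrmSem hY q (x - ∑ j ∈ Finset.range n, c j • (⟨f j, hf.mem j⟩ : Y)))
        atTop (𝓝 0)) := by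
    intro x c
    unfold Conv
    refine forall_congr' fun q => ?_
    have : (fun n => nrm q ((∑ j ∈ Finset.range n, c j • f j) - (x : ℕ → ℂ))) =
        fun n => nrmSem hY q (x - ∑ j ∈ Finset.range n, c j • (⟨f j, hf.mem j⟩ : Y)) := by
      funext n
      rw [map_sub_rev, nrmSem_apply]
      congr 1
      simp
    rw [this]
  have hS : Schauder (nrmSem hY) (fun j => (⟨f j, hf.mem j⟩ : Y)) := by
    intro x
    obtain ⟨c, hc, hu⟩ := hf.exp x x.2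
    refine ⟨c, (hconv x c).1 hc, fun d hd => hu d ((hconv x d).2 hd)⟩
  obtain ⟨c, h1, h2, h3⟩ := k2_schauder_pr (k1_gr_proof hY) hS
  exact ⟨c, h1, h2, k3_nuc_proof (k1_gr_proof hY) (k1_nuc_proof hY) h1 h2, h3⟩

/-- from the abstract notion to the concrete one -/
theorem quasiEquiv_of {Y : Submodule ℂ (ℕ → ℂ)} (hY : ClosedSub Y) {f g : ℕ → ℕ → ℂ}
    (hf : IsBasis Y f) (hg : IsBasis Y g)
    (h : QEq (nrmSem hY) (fun j => (⟨f j, hf.mem j⟩ : Y)) (fun j => (⟨g j, hg.mem j⟩ : Y))) :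
    QuasiEquiv Y f g := by
  obtain ⟨σ, lam, T, hlam, hT, hTs, hTb⟩ := h
  refine ⟨σ, lam, T, hlam, ⟨hT, hTs⟩, ?_⟩
  intro j hj
  have := congrArg (fun y : Y => (y : ℕ → ℂ)) (hTb j)
  exact this

/-- If a closed subspace of `s` has a rich absolute basis then all bases are quasi-equivalent. -/
theorem all_of_rich {Y : Submodule ℂ (ℕ → ℂ)} (hY : ClosedSub Y) {b : ℕ → Y} {c : ℕ → Y →ₗ[ℂ] ℂ}
    (hb : AB (nrmSem hY) b c) (hr : Rich (nrmSem hY) b) {f g : ℕ → ℕ → ℂ}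
    (hf : IsBasis Y f) (hg : IsBasis Y g) : QuasiEquiv Y f g := by
  obtain ⟨cf, hcf⟩ := basis_AB hY hf
  obtain ⟨cg, hcg⟩ := basis_AB hY hg
  have h1 := k4_core (k1_gr_proof hY) hb hr hcf
  have h2 := k4_core (k1_gr_proof hY) hb hr hcg
  exact quasiEquiv_of hY hf hg (QEq.join h1 h2)

end QE
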