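import Pool.Agent.Lib_helper79.QE.Abs

/-!
Quasi-equivalence, core, part 1: log-convexity, normalised absolute bases, expansions.
-/

open Filter Topology

namespace QE

variable {X : Type*} [AddCommGroup X] [Module ℂ X] {N : ℕ → Seminorm ℂ X}

lemma Gr.mono_le (hN : Gr N) {a b : ℕ} (hab : a ≤ b) (x : X) : N a x ≤ N b x := by
  induction hab with
  | refl => exact le_rfl
  | step _ ih => exact ih.trans (hN.mono _ _)

lemma Gr.pos' (hN : Gr N) {x : X} (hx : x ≠ 0) (q : ℕ) : 0 < N q x := by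
  have h0 : 0 < N 0 x := by
    rcases lt_or_eq_of_le (apply_nonneg (N 0) x) with h | h
    · exact h
    · exact absurd (hN.pos x h.symm) hx
  exact h0.trans_le (hN.mono_le (Nat.zero_le q) x)

/-- the quotients `N (q+1) x / N q x` increase with `q` (one step) -/
lemma Gr.step (hN : Gr N) {x : X} (hx : x ≠ 0) {a b : ℕ} (hab : a ≤ b) :
    N (a + 1) x * N b x ≤ N (b + 1) x * N a x := by
  induction hab with
  | refl => exact le_rfl
  | @step m hm ih =>
    have h1 := hN.lc m x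
    have p1 := hN.pos' hx m
    have p2 := hN.pos' hx (m + 1)
    have p3 := hN.pos' hx a
    have p4 := hN.pos' hx (m + 2)
    -- N(a+1) * N(m) ≤ N(m+1) * N a, N(m+1)^2 ≤ N m * N(m+2)
    have h2 : N (a + 1) x * N (m + 1) x * N m x ≤ N (m + 2) x * N a x * N m x := by
      calc N (a + 1) x * N (m + 1) x * N m x = (N (a + 1) x * N m x) * N (m + 1) x := by ring
        _ ≤ (N (m + 1) x * N a x) * N (m + 1) x := mul_le_mul_of_nonneg_right ih p2.le
        _ = N (m + 1) x ^ 2 * N a x := by ring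
        _ ≤ (N m x * N (m + 2) x) * N a x := mul_le_mul_of_nonneg_right h1 p3.le
        _ = _ := by ring
    exact le_of_mul_le_mul_right h2 p1

lemma Gr.ratio (hN : Gr N) {x : X} (hx : x ≠ 0) {a b : ℕ} (hab : a ≤ b) (v : ℕ) :
    N (a + v) x * N b x ≤ N (b + v) x * N a x := by
  induction v with
  | zero => simp [mul_comm]
  | succ v ih =>
    have h1 := hN.step hx (show a + v ≤ b + v by omega)
    have p1 := hN.pos' hx (a + v)
    have p2 := hN.pos' hx (b + v)
    have p3 := hN.pos' hx a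
    have p4 := hN.pos' hx b
    have p5 := hN.pos' hx (a + v + 1)
    have p6 := hN.pos' hx (b + v + 1)
    have h2 : N (a + v + 1) x * N b x * (N (a + v) x * N (b + v) x) ≤
        N (b + v + 1) x * N a x * (N (a + v) x * N (b + v) x) := by
      calc N (a + v + 1) x * N b x * (N (a + v) x * N (b + v) x)
          = (N (a + v + 1) x * N (b + v) x) * (N (a + v) x * N b x) := by ring
        _ ≤ (N (b + v + 1) x * N (a + v) x) * (N (b + v) x * N a x) :=
          mul_le_mul h1 ih (by positivity) (by positivity)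
        _ = _ := by ring
    exact le_of_mul_le_mul_right h2 (by positivity)

/-- superadditivity of `log N` for `N 0 x = 1` -/
lemma Gr.mul_le (hN : Gr N) {x : X} (hx : N 0 x = 1) (a b : ℕ) :
    N a x * N b x ≤ N (a + b) x := by
  have hx0 : x ≠ 0 := by
    rintro rfl
    simp at hx
  have := hN.ratio hx0 (Nat.zero_le b) a
  rw [hx, mul_one] at this
  rw [Nat.zero_add] at this
  rw [add_comm a b]
  exact this

lemma Gr.one_le (hN : Gr N) {x : X} (hx : N 0 x = 1) (q : ℕ) : 1 ≤ N q x :=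
  hx ▸ hN.mono_le (Nat.zero_le q) x

/-- Normalised absolute basis. -/
structure NAB (N : ℕ → Seminorm ℂ X) (b : ℕ → X) (c : ℕ → X →ₗ[ℂ] ℂ) : Prop extends AB N b c where
  one : ∀ i, N 0 (b i) = 1

lemma AB.ne_zero {b : ℕ → X} {c : ℕ → X →ₗ[ℂ] ℂ} (hb : AB N b c) (i : ℕ) : b i ≠ 0 := by
  intro h
  have := hb.dual i i
  rw [h] at this
  simp at this

/-- a coefficient functional is bounded by one norm -/
lemma NAB.coef {b : ℕ → X} {c : ℕ → X →ₗ[ℂ] ℂ} (hb : NAB N b c) :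
    ∃ q, ∃ C : ℝ, 0 ≤ C ∧ ∀ i x, ‖c i x‖ ≤ C * N q x := by
  obtain ⟨q, C, h⟩ := hb.bdd 0
  refine ⟨q, |C|, abs_nonneg _, fun i x => ?_⟩
  have := h i x
  rw [hb.one, mul_one] at this
  exact this.trans (mul_le_mul_of_nonneg_right (le_abs_self C) (apply_nonneg _ _))

/-- nonnegative constants in `bdd` -/
lemma AB.bdd' {b : ℕ → X} {c : ℕ → X →ₗ[ℂ] ℂ} (hb : AB N b c) (p : ℕ) :
    ∃ q, ∃ C : ℝ, 0 ≤ C ∧ ∀ i x, ‖c i x‖ * N p (b i) ≤ C * N q x := by
  obtain ⟨q, C, h⟩ := hb.bdd p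
  refine ⟨q, |C|, abs_nonneg _, fun i x => (h i x).trans ?_⟩
  exact mul_le_mul_of_nonneg_right (le_abs_self C) (apply_nonneg _ _)

lemma NAB.summable_ge (hN : Gr N) {b : ℕ → X} {c : ℕ → X →ₗ[ℂ] ℂ} (hb : NAB N b c) {v w : ℕ}
    (hvw : v ≤ w) (h : Summable fun i => (N v (b i))⁻¹) : Summable fun i => (N w (b i))⁻¹ := by
  refine Summable.of_nonneg_of_le (fun i => inv_nonneg.2 (apply_nonneg _ _)) (fun i => ?_) h
  have h1 := hN.one_le (hb.one i) v
  exact inv_anti₀ (by linarith) (hN.mono_le hvw _)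

lemma NAB.summable {b : ℕ → X} {c : ℕ → X →ₗ[ℂ] ℂ} (hb : NAB N b c) : ∃ v, Summable fun i => (N v (b i))⁻¹ := by
  obtain ⟨v, h⟩ := hb.nuc
  refine ⟨v, h.congr fun i => ?_⟩
  rw [hb.one, one_div]

/-- absolute summability of the expansion in all norms -/
lemma NAB.abs_summable (hN : Gr N) {b : ℕ → X} {c : ℕ → X →ₗ[ℂ] ℂ} (hb : NAB N b c) (x : X)
    (p : ℕ) : Summable fun i => ‖c i x‖ * N p (b i) := by
  obtain ⟨v, hv⟩ := hb.summable
  obtain ⟨q, C, hC, h⟩ := hb.bdd' (p + v)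
  have hs := hv.mul_left (C * N q x)
  refine Summable.of_nonneg_of_le (fun i => by positivity) (fun i => ?_) hs
  have h1 := h i x
  have h2 := hN.mul_le (hb.one i) p v
  have h3 := hN.one_le (hb.one i) v
  have h4 : 0 < N v (b i) := by linarith
  rw [← div_eq_mul_inv, le_div_iff₀ h4]
  calc ‖c i x‖ * N p (b i) * N v (b i) = ‖c i x‖ * (N p (b i) * N v (b i)) := by ring
    _ ≤ ‖c i x‖ * N (p + v) (b i) := mul_le_mul_of_nonneg_left h2 (norm_nonneg _)
    _ ≤ _ := h1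

/-- expansion of bounded functionals -/
lemma NAB.hasSum (hN : Gr N) {b : ℕ → X} {c : ℕ → X →ₗ[ℂ] ℂ} (hb : NAB N b c)
    (φ : X →ₗ[ℂ] ℂ) {q : ℕ} {C : ℝ} (hφ : ∀ x, ‖φ x‖ ≤ C * N q x) (x : X) :
    HasSum (fun i => c i x * φ (b i)) (φ x) := by
  have hs : Summable fun i => c i x * φ (b i) := by
    apply Summable.of_norm
    have h1 := (hb.abs_summable hN x q).mul_left |C|
    refine Summable.of_nonneg_of_le (fun i => norm_nonneg _) (fun i => ?_) h1
    rw [norm_mul]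
    calc ‖c i x‖ * ‖φ (b i)‖ ≤ ‖c i x‖ * (|C| * N q (b i)) := by
          apply mul_le_mul_of_nonneg_left _ (norm_nonneg _)
          exact (hφ _).trans (mul_le_mul_of_nonneg_right (le_abs_self C) (apply_nonneg _ _))
      _ = _ := by ring
  refine (hs.hasSum_iff_tendsto_nat).2 ?_
  have h2 := (hb.exp x q).const_mul |C|
  rw [mul_zero] at h2
  have h3 : Tendsto (fun n => φ (x - ∑ i ∈ Finset.range n, c i x • b i)) atTop (𝓝 0) := by
    refine squeeze_zero_norm (fun n => ?_) h2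
    exact (hφ _).trans (mul_le_mul_of_nonneg_right (le_abs_self C) (apply_nonneg _ _))
  have h4 := h3.const_sub (φ x)
  rw [sub_zero] at h4
  refine h4.congr fun n => ?_
  rw [map_sub, map_sum]
  simp [map_smul, smul_eq_mul]

lemma NAB.tsum_eq (hN : Gr N) {b : ℕ → X} {c : ℕ → X →ₗ[ℂ] ℂ} (hb : NAB N b c)
    (φ : X →ₗ[ℂ] ℂ) {q : ℕ} {C : ℝ} (hφ : ∀ x, ‖φ x‖ ≤ C * N q x) (x : X) :
    ∑' i, c i x * φ (b i) = φ x := (hb.hasSum hN φ hφ x).tsum_eq

end QE
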