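import Pool.Agent.Lib_helper79.QE.Core1

/-!
Quasi-equivalence, core, part 2: the rank lemma and the nearness estimates.
-/

open Filter Topology

namespace QE

variable {X : Type*} [AddCommGroup X] [Module ℂ X] {N : ℕ → Seminorm ℂ X}

/-- **Rank lemma.** `J` finite, nonempty: at least `|J|` members `b' k` are connected with `J` by
large products of matrix entries. -/
theorem rank_lemma (hN : Gr N) {b b' : ℕ → X} {c c' : ℕ → X →ₗ[ℂ] ℂ}
    (hb : NAB N b c) (hb' : NAB N b' c') {v : ℕ}
    (hv : Summable fun k => (N v (b' k))⁻¹) {W : ℝ} (hW0 : 0 < W)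
    (hW : ∑' k, (N v (b' k))⁻¹ ≤ W) (J : Finset ℕ) :
    ∃ G : Finset ℕ, J.card ≤ G.card ∧ ∀ k ∈ G, ∃ i ∈ J, ∃ j ∈ J,
      1 ≤ (2 * (J.card : ℝ) * W) * N v (b' k) * (‖c' k (b i)‖ * ‖c j (b' k)‖) := by
  classical
  by_contra hcon
  push Not at hcon
  -- the set of good indices is finite with fewer than |J| elements
  set H : Set ℕ := {k | ∃ i ∈ J, ∃ j ∈ J,
      1 ≤ (2 * (J.card : ℝ) * W) * N v (b' k) * (‖c' k (b i)‖ * ‖c j (b' k)‖)} with hH
  have hfin : H.Finite := by
    by_contra hinf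
    obtain ⟨G, hGs, hGc⟩ := Set.Infinite.exists_subset_card_eq (Set.not_finite.1 hinf |>.mono (le_refl _)) J.card
    obtain ⟨k, hk, hk2⟩ := hcon G hGc.ge
    obtain ⟨i, hi, j, hj, h⟩ := hGs hk
    exact absurd h (not_le.2 (hk2 i hi j hj))
  have hcard : hfin.toFinset.card < J.card := by
    by_contra hge
    obtain ⟨k, hk, hk2⟩ := hcon hfin.toFinset (not_lt.1 hge)
    obtain ⟨i, hi, j, hj, h⟩ := hfin.mem_toFinset.1 hk
    exact absurd h (not_le.2 (hk2 i hi j hj))
  -- a nonzero vector
  let L : (J → ℂ) →ₗ[ℂ] (hfin.toFinset → ℂ) :=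
    { toFun := fun w k => ∑ i : J, w i * c' k (b i)
      map_add' := by
        intro w w'
        funext k
        simp [add_mul, Finset.sum_add_distrib]
      map_smul' := by
        intro a w
        funext k
        simp [Finset.mul_sum, mul_assoc] }
  have hker : ∃ w : J → ℂ, w ≠ 0 ∧ L w = 0 := by
    by_contra hno
    push Not at hno
    have hinj : Function.Injective L := by
      rw [← LinearMap.ker_eq_bot, LinearMap.ker_eq_bot']
      intro w hw
      by_contra hne
      exact hno w hne hw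
    have := LinearMap.finrank_le_finrank_of_injective hinj
    simp only [Module.finrank_fintype_fun_eq_card, Fintype.card_coe] at this
    omega
  obtain ⟨w, hw0, hw⟩ := hker
  have hJne : (Finset.univ : Finset J).Nonempty := by
    obtain ⟨i, _⟩ := Function.ne_iff.1 hw0
    exact ⟨i, Finset.mem_univ i⟩
  obtain ⟨j, _, hj⟩ := Finset.exists_max_image (Finset.univ : Finset J) (fun i => ‖w i‖) hJne
  have hj' : ∀ i : J, ‖w i‖ ≤ ‖w j‖ := fun i => hj i (Finset.mem_univ i)
  have hwj : 0 < ‖w j‖ := by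
    rcases lt_or_eq_of_le (norm_nonneg (w j)) with h | h
    · exact h
    · exfalso
      apply hw0
      funext i
      have := hj' i
      rw [← h] at this
      exact norm_le_zero_iff.1 this
  -- the vector y
  set y : X := ∑ i : J, w i • b i with hy
  have hcy : c j y = w j := by
    rw [hy, map_sum]
    rw [Finset.sum_eq_single j]
    · rw [map_smul, hb.dual]; simp
    · intro i _ hij
      rw [map_smul, hb.dual]
      have : ¬ ((j : ℕ) = (i : ℕ)) := fun h => hij (Subtype.ext h.symm)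
      simp [this]
    · intro h; exact absurd (Finset.mem_univ j) h
  have hcky : ∀ k, c' k y = ∑ i : J, w i * c' k (b i) := by
    intro k
    rw [hy, map_sum]
    simp [map_smul, smul_eq_mul]
  have hcky0 : ∀ k ∈ H, c' k y = 0 := by
    intro k hk
    rw [hcky]
    have := congrFun hw ⟨k, hfin.mem_toFinset.2 hk⟩
    exact this
  obtain ⟨q, C, hC, hcoef⟩ := hb.coef
  have hs := hb'.hasSum hN (c j) (fun x => hcoef j x) y
  have hJpos : (0 : ℝ) < J.card := by
    have : 0 < J.card := Finset.card_pos.2 ⟨j, j.2⟩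
    exact_mod_cast this
  have hbound : ∀ k, ‖c' k y * c j (b' k)‖ ≤ (‖w j‖ / (2 * W)) * (N v (b' k))⁻¹ := by
    intro k
    have hpos : 0 < N v (b' k) := by
      have := hN.one_le (hb'.one k) v
      linarith
    by_cases hk : k ∈ H
    · rw [hcky0 k hk, zero_mul, norm_zero]
      positivity
    · have hk2 : ∀ i : J, (2 * (J.card : ℝ) * W) * N v (b' k) * (‖c' k (b i)‖ * ‖c j (b' k)‖) < 1 := by
        intro i
        by_contra hge
        exact hk ⟨i, i.2, j, j.2, not_lt.1 hge⟩
      rw [norm_mul, hcky]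
      calc ‖∑ i : J, w i * c' k (b i)‖ * ‖c j (b' k)‖
          ≤ (∑ i : J, ‖w i‖ * ‖c' k (b i)‖) * ‖c j (b' k)‖ := by
            apply mul_le_mul_of_nonneg_right _ (norm_nonneg _)
            refine (norm_sum_le _ _).trans (Finset.sum_le_sum fun i _ => ?_)
            rw [norm_mul]
        _ = ∑ i : J, ‖w i‖ * (‖c' k (b i)‖ * ‖c j (b' k)‖) := by
            rw [Finset.sum_mul]
            exact Finset.sum_congr rfl fun i _ => by ring
        _ ≤ ∑ _i : J, ‖w j‖ * ((2 * (J.card : ℝ) * W) * N v (b' k))⁻¹ := by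
            refine Finset.sum_le_sum fun i _ => ?_
            apply mul_le_mul (hj' i) _ (by positivity) (norm_nonneg _)
            have := hk2 i
            have hpos2 : 0 < (2 * (J.card : ℝ) * W) * N v (b' k) := by positivity
            rw [inv_eq_one_div, le_div_iff₀ hpos2, mul_comm]
            exact this.le
        _ = _ := by
            rw [Finset.sum_const, Finset.card_univ, Fintype.card_coe, nsmul_eq_mul]
            field_simp
  have hsum : Summable fun k => (‖w j‖ / (2 * W)) * (N v (b' k))⁻¹ := hv.mul_left _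
  have hle : ‖c j y‖ ≤ ∑' k, (‖w j‖ / (2 * W)) * (N v (b' k))⁻¹ := by
    rw [← hs.tsum_eq]
    exact tsum_of_norm_bounded hsum.hasSum hbound
  rw [tsum_mul_left, hcy] at hle
  have : ‖w j‖ / (2 * W) * ∑' k, (N v (b' k))⁻¹ ≤ ‖w j‖ / (2 * W) * W :=
    mul_le_mul_of_nonneg_left hW (by positivity)
  have h3 : ‖w j‖ / (2 * W) * W = ‖w j‖ / 2 := by field_simp
  linarith

/-- Nearness estimates from a large product of matrix entries. -/
theorem near_est (hN : Gr N) {b b' : ℕ → X} {c c' : ℕ → X →ₗ[ℂ] ℂ}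
    (hb : NAB N b c) (hb' : NAB N b' c') (v : ℕ) :
    ∃ (κ : ℕ → ℕ) (K : ℕ → ℝ) (s : ℕ), (∀ p, 0 ≤ K p) ∧ ∀ n : ℝ, 0 ≤ n → ∀ i j k,
      1 ≤ n * N v (b' k) * (‖c' k (b i)‖ * ‖c j (b' k)‖) → ∀ p,
        N p (b' k) ≤ K p * n * N (κ p) (b i) ∧
        N p (b j) ≤ K p * n * N (κ p) (b' k) * N s (b i) := by
  obtain ⟨q0, C0, hC0, h0⟩ := hb.coef
  obtain ⟨q0', C0', hC0', h0'⟩ := hb'.coef
  have ha := fun p => hb'.bdd' (p + v + q0)
  have hbb := fun p => hb.bdd' p
  choose qa Ca hCa hqa using ha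
  choose qb Cb hCb hqb using hbb
  refine ⟨fun p => max (qa p) (v + qb p), fun p => C0 * Ca p + C0' * Cb p, q0', fun p => by
    have := hCa p; have := hCb p; positivity, ?_⟩
  intro n hn i j k h p
  have hv1 := hN.one_le (hb'.one k) v
  have t0 : 0 ≤ ‖c' k (b i)‖ := norm_nonneg _
  have s0 : 0 ≤ ‖c j (b' k)‖ := norm_nonneg _
  have ca := hCa p
  have cb := hCb p
  have m1 := hN.mul_le (hb'.one k) p v
  have m2 := hN.mul_le (hb'.one k) (p + v) q0
  have e1 : N (qa p) (b i) ≤ N (max (qa p) (v + qb p)) (b i) := hN.mono_le (le_max_left _ _) _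
  have e2 : N (v + qb p) (b' k) ≤ N (max (qa p) (v + qb p)) (b' k) := hN.mono_le (le_max_right _ _) _
  constructor
  · have hp0 : 0 ≤ N p (b' k) := apply_nonneg _ _
    calc N p (b' k) = N p (b' k) * 1 := (mul_one _).symm
      _ ≤ N p (b' k) * (n * N v (b' k) * (‖c' k (b i)‖ * ‖c j (b' k)‖)) :=
        mul_le_mul_of_nonneg_left h hp0
      _ = (n * ‖c' k (b i)‖) * (N p (b' k) * N v (b' k)) * ‖c j (b' k)‖ := by ring
      _ ≤ (n * ‖c' k (b i)‖) * N (p + v) (b' k) * (C0 * N q0 (b' k)) := by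
        apply mul_le_mul _ (h0 j _) s0 (by positivity)
        exact mul_le_mul_of_nonneg_left m1 (by positivity)
      _ = (n * ‖c' k (b i)‖ * C0) * (N (p + v) (b' k) * N q0 (b' k)) := by ring
      _ ≤ (n * ‖c' k (b i)‖ * C0) * N (p + v + q0) (b' k) :=
        mul_le_mul_of_nonneg_left m2 (by positivity)
      _ = (n * C0) * (‖c' k (b i)‖ * N (p + v + q0) (b' k)) := by ring
      _ ≤ (n * C0) * (Ca p * N (qa p) (b i)) :=
        mul_le_mul_of_nonneg_left (hqa p k (b i)) (by positivity)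
      _ = (C0 * Ca p) * n * N (qa p) (b i) := by ring
      _ ≤ (C0 * Ca p + C0' * Cb p) * n * N (max (qa p) (v + qb p)) (b i) := by
        apply mul_le_mul _ e1 (apply_nonneg _ _) (by positivity)
        apply mul_le_mul_of_nonneg_right _ hn
        have : 0 ≤ C0' * Cb p := by positivity
        linarith
  · have hp0 : 0 ≤ N p (b j) := apply_nonneg _ _
    have m3 := hN.mul_le (hb'.one k) v (qb p)
    calc N p (b j) = N p (b j) * 1 := (mul_one _).symm
      _ ≤ N p (b j) * (n * N v (b' k) * (‖c' k (b i)‖ * ‖c j (b' k)‖)) :=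
        mul_le_mul_of_nonneg_left h hp0
      _ = (n * N v (b' k)) * ‖c' k (b i)‖ * (‖c j (b' k)‖ * N p (b j)) := by ring
      _ ≤ (n * N v (b' k)) * (C0' * N q0' (b i)) * (Cb p * N (qb p) (b' k)) := by
        apply mul_le_mul _ (hqb p j (b' k)) (by positivity) (by positivity)
        exact mul_le_mul_of_nonneg_left (h0' k _) (by positivity)
      _ = (C0' * Cb p) * n * (N v (b' k) * N (qb p) (b' k)) * N q0' (b i) := by ring
      _ ≤ (C0' * Cb p) * n * N (v + qb p) (b' k) * N q0' (b i) := by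
        apply mul_le_mul_of_nonneg_right _ (apply_nonneg _ _)
        exact mul_le_mul_of_nonneg_left m3 (by positivity)
      _ ≤ (C0 * Ca p + C0' * Cb p) * n * N (max (qa p) (v + qb p)) (b' k) * N q0' (b i) := by
        apply mul_le_mul_of_nonneg_right _ (apply_nonneg _ _)
        apply mul_le_mul _ e2 (apply_nonneg _ _) (by positivity)
        apply mul_le_mul_of_nonneg_right _ hn
        have : 0 ≤ C0 * Ca p := by positivity
        linarith

end QE
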