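import Pool.Agent.Lib_helper79.QE.Core2

/-!
Quasi-equivalence, core, part 3: near injections in both directions, the near bijection.
-/

open Filter Topology

namespace QE

variable {X : Type*} [AddCommGroup X] [Module ℂ X] {N : ℕ → Seminorm ℂ X}

/-- nearness of normalised vectors -/
def NearN (N : ℕ → Seminorm ℂ X) (σ : ℕ → ℕ) (C : ℕ → ℝ) (x y : X) : Prop :=
  ∀ p, N p y ≤ C p * N (σ p) x ∧ N p x ≤ C p * N (σ p) y

lemma near_iff {σ : ℕ → ℕ} {C : ℕ → ℝ} {x y : X} (hx : N 0 x = 1) (hy : N 0 y = 1) :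
    Near N σ C x y ↔ NearN N σ C x y := by
  unfold Near NearN R
  rw [hx, hy]
  simp

/-- counting -/
lemma count_le {r : ℕ → ℝ} (hr : ∀ i, 1 ≤ r i) (hs : Summable fun i => (r i)⁻¹) {W : ℝ}
    (hW : ∑' i, (r i)⁻¹ ≤ W) {F : Finset ℕ} {t : ℝ} (ht0 : 0 ≤ t) (hF : ∀ j ∈ F, r j ≤ t) :
    (F.card : ℝ) ≤ W * t := by
  have hW0 : 0 ≤ W := (tsum_nonneg fun i => inv_nonneg.2 (by linarith [hr i])).trans hW
  rcases F.eq_empty_or_nonempty with h | ⟨j, hj⟩
  · subst h
    simpa using mul_nonneg hW0 ht0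
  · have ht : 1 ≤ t := (hr j).trans (hF j hj)
    have h1 : ∑ i ∈ F, (r i)⁻¹ ≤ W :=
      (hs.sum_le_tsum F fun i _ => inv_nonneg.2 (by linarith [hr i])).trans hW
    have h2 : (F.card : ℝ) * t⁻¹ ≤ ∑ i ∈ F, (r i)⁻¹ := by
      rw [← nsmul_eq_mul]
      apply Finset.card_nsmul_le_sum
      intro i hi
      exact inv_anti₀ (by linarith [hr i]) (hF i hi)
    have h3 : (F.card : ℝ) * t⁻¹ ≤ W := h2.trans h1
    rw [← div_eq_mul_inv, div_le_iff₀ (by linarith)] at h3
    exact h3

lemma finite_le {r : ℕ → ℝ} (hr : ∀ i, 1 ≤ r i) (hs : Summable fun i => (r i)⁻¹) {t : ℝ} :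
    {j | r j ≤ t}.Finite := by
  rcases lt_or_ge t 0 with h | h
  · have : {j | r j ≤ t} = ∅ := by
      ext j
      simp only [Set.mem_ofPred_eq, Set.mem_empty_iff_false, iff_false, not_le]
      linarith [hr j]
    rw [this]; exact Set.finite_empty
  · by_contra hinf
    obtain ⟨n, hn⟩ := exists_nat_gt ((∑' i, (r i)⁻¹) * t)
    obtain ⟨G, hGs, hGc⟩ := Set.Infinite.exists_subset_card_eq hinf n
    have := count_le hr hs le_rfl h (F := G) (fun j hj => hGs hj)
    rw [hGc] at this
    linarith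

/-- richness with a larger `v` (normalised) -/
lemma Rich.out (hN : Gr N) {b : ℕ → X} (h1 : ∀ i, N 0 (b i) = 1) (hr : Rich N b) :
    ∃ vR, ∀ v, vR ≤ v → ∀ (q : ℕ) (C0 : ℝ), ∃ (σ : ℕ → ℕ) (C : ℕ → ℝ), ∀ (i : ℕ) (F : Finset ℕ),
    (∀ j ∈ F, N v (b j) ≤ C0 * N q (b i)) →
    ∃ G : Finset ℕ, F.card ≤ G.card ∧ ∀ j ∈ G, NearN N σ C (b i) (b j) := by
  obtain ⟨vR, h⟩ := hr
  refine ⟨vR, fun v hv q C0 => ?_⟩
  obtain ⟨σ, C, hh⟩ := h q C0
  refine ⟨σ, C, fun i F hF => ?_⟩
  obtain ⟨G, hG, hG2⟩ := hh i F (fun j hj => by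
    unfold R
    rw [h1, h1, div_one, div_one]
    exact (hN.mono_le hv _).trans (hF j hj))
  exact ⟨G, hG, fun j hj => (near_iff (h1 i) (h1 j)).1 (hG2 j hj)⟩

/-- **From a rich basis to any basis.** -/
theorem inj_out (hN : Gr N) {b b' : ℕ → X} {c c' : ℕ → X →ₗ[ℂ] ℂ}
    (hb : NAB N b c) (hb' : NAB N b' c') (hr : Rich N b) :
    ∃ (σ : ℕ → ℕ) (C : ℕ → ℝ) (ψ : ℕ → ℕ), Function.Injective ψ ∧
      ∀ i, NearN N σ C (b i) (b' (ψ i)) := by
  classical
  obtain ⟨vR, hrich⟩ := hr.out hN hb.one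
  obtain ⟨v1, hv1⟩ := hb.summable
  obtain ⟨v2, hv2⟩ := hb'.summable
  set v := max vR (max v1 v2) with hv
  have hs : Summable fun i => (N v (b i))⁻¹ :=
    hb.summable_ge hN ((le_max_left _ _).trans (le_max_right _ _)) hv1
  have hs' : Summable fun i => (N v (b' i))⁻¹ :=
    hb'.summable_ge hN ((le_max_right _ _).trans (le_max_right _ _)) hv2
  have hge : ∀ i, 1 ≤ N v (b i) := fun i => hN.one_le (hb.one i) v
  have hge' : ∀ i, 1 ≤ N v (b' i) := fun i => hN.one_le (hb'.one i) v
  set W := 1 + ∑' i, (N v (b i))⁻¹ with hW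
  set W' := 1 + ∑' i, (N v (b' i))⁻¹ with hW'
  have hWn : 0 ≤ ∑' i, (N v (b i))⁻¹ := tsum_nonneg fun i => inv_nonneg.2 (by linarith [hge i])
  have hWn' : 0 ≤ ∑' i, (N v (b' i))⁻¹ := tsum_nonneg fun i => inv_nonneg.2 (by linarith [hge' i])
  have hWpos : 0 < W := by linarith
  have hWpos' : 0 < W' := by linarith
  obtain ⟨σ, C, hrich'⟩ := hrich v (le_max_left _ _) v 1
  obtain ⟨κ, K, s, hK, hest⟩ := near_est hN hb hb' v
  -- the finite sets
  have hfin : ∀ i, {j | N v (b j) ≤ N v (b i)}.Finite := fun i => finite_le hge hs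
  have hkey : ∀ i, ∃ G : Finset ℕ, (hfin i).toFinset.card ≤ G.card ∧ ∀ k ∈ G,
      NearN N (fun p => max (v + σ (κ p)) (κ (σ (p + (v + σ s)))))
        (fun p => |K p * (2 * W' * W) * C (κ p)| +
          |C (p + (v + σ s)) * K (σ (p + (v + σ s))) * (2 * W' * W) * C s|) (b i) (b' k) := by
    intro i
    obtain ⟨G0, hG0, hG0n⟩ := hrich' i (hfin i).toFinset (fun j hj => by
      rw [one_mul]; exact (hfin i).mem_toFinset.1 hj)
    obtain ⟨J, hJG, hJc⟩ := Finset.exists_subset_card_eq hG0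
    obtain ⟨G, hG, hGk⟩ := rank_lemma hN hb hb' hs' hWpos' (by linarith) J
    refine ⟨G, hJc ▸ hG, ?_⟩
    intro k hk p
    obtain ⟨i', hi', j', hj', h⟩ := hGk k hk
    have hn0 : 0 ≤ 2 * (J.card : ℝ) * W' := by positivity
    have hcount : (J.card : ℝ) ≤ W * N v (b i) := by
      rw [hJc]
      exact count_le hge hs (by linarith) (by linarith [hge i]) (fun j hj => (hfin i).mem_toFinset.1 hj)
    have hnle : 2 * (J.card : ℝ) * W' ≤ (2 * W' * W) * N v (b i) := by
      have := mul_le_mul_of_nonneg_left hcount (show 0 ≤ 2 * W' by positivity)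
      linarith
    have near_i := hG0n i' (hJG hi')
    have near_j := hG0n j' (hJG hj')
    constructor
    · obtain ⟨e1, -⟩ := hest _ hn0 i' j' k h p
      have e2 := (near_i (κ p)).1
      have hKp := hK p
      have m := hN.mul_le (hb.one i) v (σ (κ p))
      calc N p (b' k) ≤ K p * (2 * (J.card : ℝ) * W') * N (κ p) (b i') := e1
        _ ≤ K p * ((2 * W' * W) * N v (b i)) * (C (κ p) * N (σ (κ p)) (b i)) := by
          apply mul_le_mul _ e2 (apply_nonneg _ _) (by positivity)
          exact mul_le_mul_of_nonneg_left hnle hKp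
        _ = (K p * (2 * W' * W) * C (κ p)) * (N v (b i) * N (σ (κ p)) (b i)) := by ring
        _ ≤ |K p * (2 * W' * W) * C (κ p)| * (N v (b i) * N (σ (κ p)) (b i)) :=
          mul_le_mul_of_nonneg_right (le_abs_self _) (by positivity)
        _ ≤ |K p * (2 * W' * W) * C (κ p)| * N (v + σ (κ p)) (b i) :=
          mul_le_mul_of_nonneg_left m (abs_nonneg _)
        _ ≤ _ := by
          apply mul_le_mul _ (hN.mono_le (le_max_left _ _) _) (apply_nonneg _ _) (by positivity)
          linarith [abs_nonneg (C (p + (v + σ s)) * K (σ (p + (v + σ s))) * (2 * W' * W) * C s)]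
    · set P := p + (v + σ s) with hP
      obtain ⟨-, e1⟩ := hest _ hn0 i' j' k h (σ P)
      have e2 := (near_j P).2
      have e3 := (near_i s).1
      have hKp := hK (σ P)
      have m1 := hN.mul_le (hb.one i) p (v + σ s)
      have m2 := hN.mul_le (hb.one i) v (σ s)
      have hCP : 0 < C P := by
        by_contra hneg
        push Not at hneg
        have := hN.one_le (hb.one i) P
        have h0 : 0 ≤ N (σ P) (b j') := apply_nonneg _ _
        nlinarith
      have key : N p (b i) * (N v (b i) * N (σ s) (b i)) ≤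
          (|C P * K (σ P) * (2 * W' * W) * C s| * N (κ (σ P)) (b' k)) *
            (N v (b i) * N (σ s) (b i)) := by
        calc N p (b i) * (N v (b i) * N (σ s) (b i)) ≤ N p (b i) * N (v + σ s) (b i) :=
              mul_le_mul_of_nonneg_left m2 (apply_nonneg _ _)
          _ ≤ N P (b i) := m1
          _ ≤ C P * N (σ P) (b j') := e2
          _ ≤ C P * (K (σ P) * (2 * (J.card : ℝ) * W') * N (κ (σ P)) (b' k) * N s (b i')) :=
            mul_le_mul_of_nonneg_left e1 hCP.le
          _ ≤ C P * (K (σ P) * ((2 * W' * W) * N v (b i)) * N (κ (σ P)) (b' k) *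
              (C s * N (σ s) (b i))) := by
            apply mul_le_mul_of_nonneg_left _ hCP.le
            apply mul_le_mul _ e3 (apply_nonneg _ _) (by positivity)
            apply mul_le_mul_of_nonneg_right _ (apply_nonneg _ _)
            exact mul_le_mul_of_nonneg_left hnle hKp
          _ = ((C P * K (σ P) * (2 * W' * W) * C s) * N (κ (σ P)) (b' k)) *
            (N v (b i) * N (σ s) (b i)) := by ring
          _ ≤ _ := by
            apply mul_le_mul_of_nonneg_right _ (by positivity)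
            exact mul_le_mul_of_nonneg_right (le_abs_self _) (apply_nonneg _ _)
      have hpos : 0 < N v (b i) * N (σ s) (b i) := by
        have a1 := hge i
        have a2 := hN.one_le (hb.one i) (σ s)
        nlinarith
      have key2 := le_of_mul_le_mul_right key hpos
      refine key2.trans ?_
      apply mul_le_mul _ (hN.mono_le (le_max_right _ _) _) (apply_nonneg _ _) (by positivity)
      linarith [abs_nonneg (K p * (2 * W' * W) * C (κ p))]
  choose G hG hGn using hkey
  -- Hall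
  have hHall : ∀ A : Finset ℕ, A.card ≤ (A.biUnion G).card := by
    intro A
    rcases A.eq_empty_or_nonempty with h | h
    · subst h; simp
    · obtain ⟨i, hi, hmax⟩ := Finset.exists_max_image A (fun i => N v (b i)) h
      have h1 : A ⊆ (hfin i).toFinset := fun j hj => (hfin i).mem_toFinset.2 (hmax j hj)
      calc A.card ≤ (hfin i).toFinset.card := Finset.card_le_card h1
        _ ≤ (G i).card := hG i
        _ ≤ _ := Finset.card_le_card (Finset.subset_biUnion_of_mem G hi)
  obtain ⟨ψ, hψ, hψ2⟩ := (Finset.all_card_le_biUnion_card_iff_exists_injective G).1 hHall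
  exact ⟨_, _, ψ, hψ, fun i => hGn i (ψ i) (hψ2 i)⟩

/-- **From any basis into a rich basis.** -/
theorem inj_in (hN : Gr N) {b b' : ℕ → X} {c c' : ℕ → X →ₗ[ℂ] ℂ}
    (hb : NAB N b c) (hb' : NAB N b' c') (hr : Rich N b) :
    ∃ (σ : ℕ → ℕ) (C : ℕ → ℝ) (φ : ℕ → ℕ), Function.Injective φ ∧
      ∀ k, NearN N σ C (b' k) (b (φ k)) := by
  classical
  obtain ⟨vR, hrich⟩ := hr.out hN hb.one
  obtain ⟨v1, hv1⟩ := hb.summable
  obtain ⟨v2, hv2⟩ := hb'.summable
  set v := max vR (max v1 v2) with hv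
  have hs : Summable fun i => (N v (b i))⁻¹ :=
    hb.summable_ge hN ((le_max_left _ _).trans (le_max_right _ _)) hv1
  have hs' : Summable fun i => (N v (b' i))⁻¹ :=
    hb'.summable_ge hN ((le_max_right _ _).trans (le_max_right _ _)) hv2
  have hge : ∀ i, 1 ≤ N v (b i) := fun i => hN.one_le (hb.one i) v
  have hge' : ∀ i, 1 ≤ N v (b' i) := fun i => hN.one_le (hb'.one i) v
  set W := 1 + ∑' i, (N v (b i))⁻¹ with hW
  set W' := 1 + ∑' i, (N v (b' i))⁻¹ with hW'
  have hWn : 0 ≤ ∑' i, (N v (b i))⁻¹ := tsum_nonneg fun i => inv_nonneg.2 (by linarith [hge i])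
  have hWn' : 0 ≤ ∑' i, (N v (b' i))⁻¹ := tsum_nonneg fun i => inv_nonneg.2 (by linarith [hge' i])
  have hWpos : 0 < W := by linarith
  have hWpos' : 0 < W' := by linarith
  obtain ⟨κ, K, s, hK, hest⟩ := near_est hN hb' hb v
  -- step 1: a near member of `b` for every `b' k`
  have hpi : ∀ k, ∃ i, ∀ p, N p (b i) ≤ (K p * (2 * W)) * N (κ p) (b' k) ∧
      N p (b' k) ≤ (K (p + s) * (2 * W)) * N (κ (p + s)) (b i) := by
    intro k
    obtain ⟨G, hG, hGk⟩ := rank_lemma hN hb' hb hs hWpos (by linarith) {k}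
    rw [Finset.card_singleton] at hG
    obtain ⟨i, hi⟩ := Finset.card_pos.1 (lt_of_lt_of_le one_pos hG)
    obtain ⟨k1, hk1, k2, hk2, h⟩ := hGk i hi
    rw [Finset.mem_singleton] at hk1 hk2
    subst hk1
    subst hk2
    rw [Finset.card_singleton] at h
    have h' := hest (2 * ((1 : ℕ) : ℝ) * W) (by positivity) _ _ _ h
    refine ⟨i, fun p => ⟨?_, ?_⟩⟩
    · have := (h' p).1
      simpa using this
    · have e := (h' (p + s)).2
      have m := hN.mul_le (hb'.one k2) p s
      have hpos : 0 < N s (b' k2) := by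
        have := hN.one_le (hb'.one k2) s
        linarith
      have e2 : N p (b' k2) * N s (b' k2) ≤
          (K (p + s) * (2 * W)) * N (κ (p + s)) (b i) * N s (b' k2) := by
        refine m.trans (e.trans (le_of_eq ?_))
        push_cast
        ring
      exact le_of_mul_le_mul_right e2 hpos
  choose π hπ using hpi
  -- step 2
  set Q := max (κ (κ v + s)) (κ (v + s)) with hQ
  have hκ : ∀ k, N (κ v) (b' k) ≤ (K (κ v + s) * (2 * W)) * N Q (b (π k)) := by
    intro k
    refine ((hπ k (κ v)).2).trans ?_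
    apply mul_le_mul_of_nonneg_left (hN.mono_le (le_max_left _ _) _)
    have := hK (κ v + s)
    positivity
  have hv' : ∀ k, N v (b' k) ≤ (K (v + s) * (2 * W)) * N Q (b (π k)) := by
    intro k
    refine ((hπ k v).2).trans ?_
    apply mul_le_mul_of_nonneg_left (hN.mono_le (le_max_right _ _) _)
    have := hK (v + s)
    positivity
  set A1 := K (κ v + s) * (2 * W) with hA1
  set A2 := K (v + s) * (2 * W) with hA2
  have hA1p : 0 ≤ A1 := by
    have := hK (κ v + s)
    positivity
  have hA2p : 0 ≤ A2 := by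
    have := hK (v + s)
    positivity
  set C0 := K v * (2 * (W' * A2) * W) * A1 with hC0
  have hKv := hK v
  have hC0p : 0 ≤ C0 := by positivity
  obtain ⟨σ, C, hrich'⟩ := hrich v (le_max_left _ _) (Q + Q) C0
  have hfin : ∀ i, {j | N v (b j) ≤ C0 * N (Q + Q) (b i)}.Finite := fun i => finite_le hge hs
  have hcand : ∀ i, ∃ G : Finset ℕ, (hfin i).toFinset.card ≤ G.card ∧
      ∀ j ∈ G, NearN N σ C (b i) (b j) := by
    intro i
    exact hrich' i _ (fun j hj => (hfin i).mem_toFinset.1 hj)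
  choose G hG hGn using hcand
  have hHall : ∀ J : Finset ℕ, J.card ≤ (J.biUnion fun k => G (π k)).card := by
    intro J
    rcases J.eq_empty_or_nonempty with h | h
    · subst h; simp
    · obtain ⟨k0, hk0, hmax⟩ := Finset.exists_max_image J (fun k => N Q (b (π k))) h
      obtain ⟨H, hH, hHk⟩ := rank_lemma hN hb' hb hs hWpos (by linarith) J
      have hQ0 : 0 ≤ N Q (b (π k0)) := apply_nonneg _ _
      -- bound of |J|
      have hJ : (J.card : ℝ) ≤ W' * (A2 * N Q (b (π k0))) := by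
        apply count_le hge' hs' (by linarith) (by positivity)
        intro k hk
        exact (hv' k).trans (mul_le_mul_of_nonneg_left (hmax k hk) hA2p)
      have hsub : H ⊆ (hfin (π k0)).toFinset := by
        intro i hi
        rw [(hfin (π k0)).mem_toFinset]
        show N v (b i) ≤ C0 * N (Q + Q) (b (π k0))
        obtain ⟨k, hk, l, hl, h⟩ := hHk i hi
        have e := (hest (2 * (J.card : ℝ) * W) (by positivity) _ _ _ h v).1
        have m := hN.mul_le (hb.one (π k0)) Q Q
        calc N v (b i) ≤ K v * (2 * (J.card : ℝ) * W) * N (κ v) (b' k) := e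
          _ ≤ K v * (2 * (W' * (A2 * N Q (b (π k0)))) * W) * (A1 * N Q (b (π k0))) := by
            apply mul_le_mul _ _ (apply_nonneg _ _) (by positivity)
            · apply mul_le_mul_of_nonneg_left _ hKv
              apply mul_le_mul_of_nonneg_right _ hWpos.le
              linarith
            · exact (hκ k).trans (mul_le_mul_of_nonneg_left (hmax k hk) hA1p)
          _ = C0 * (N Q (b (π k0)) * N Q (b (π k0))) := by rw [hC0]; ring
          _ ≤ C0 * N (Q + Q) (b (π k0)) := mul_le_mul_of_nonneg_left m hC0p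
      calc J.card ≤ H.card := hH
        _ ≤ (hfin (π k0)).toFinset.card := Finset.card_le_card hsub
        _ ≤ (G (π k0)).card := hG _
        _ ≤ _ := Finset.card_le_card (Finset.subset_biUnion_of_mem (fun k => G (π k)) hk0)
  obtain ⟨φ, hφ, hφ2⟩ := (Finset.all_card_le_biUnion_card_iff_exists_injective _).1 hHall
  refine ⟨fun p => max (κ (σ p)) (σ (κ (p + s))),
    fun p => |C p| * (K (σ p) * (2 * W)) + (K (p + s) * (2 * W)) * |C (κ (p + s))|, φ, hφ, ?_⟩
  intro k p
  have hn := hGn (π k) (φ k) (hφ2 k)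
  have k1 := hK (σ p)
  have k2 := hK (p + s)
  constructor
  · calc N p (b (φ k)) ≤ C p * N (σ p) (b (π k)) := (hn p).1
      _ ≤ |C p| * N (σ p) (b (π k)) := mul_le_mul_of_nonneg_right (le_abs_self _) (apply_nonneg _ _)
      _ ≤ |C p| * ((K (σ p) * (2 * W)) * N (κ (σ p)) (b' k)) :=
        mul_le_mul_of_nonneg_left (hπ k (σ p)).1 (abs_nonneg _)
      _ = |C p| * (K (σ p) * (2 * W)) * N (κ (σ p)) (b' k) := by ring
      _ ≤ _ := by
        apply mul_le_mul _ (hN.mono_le (le_max_left _ _) _) (apply_nonneg _ _) (by positivity)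
        have : 0 ≤ (K (p + s) * (2 * W)) * |C (κ (p + s))| := by positivity
        linarith
  · calc N p (b' k) ≤ (K (p + s) * (2 * W)) * N (κ (p + s)) (b (π k)) := (hπ k p).2
      _ ≤ (K (p + s) * (2 * W)) * (C (κ (p + s)) * N (σ (κ (p + s))) (b (φ k))) :=
        mul_le_mul_of_nonneg_left (hn _).2 (by positivity)
      _ ≤ (K (p + s) * (2 * W)) * (|C (κ (p + s))| * N (σ (κ (p + s))) (b (φ k))) := by
        apply mul_le_mul_of_nonneg_left _ (by positivity)
        exact mul_le_mul_of_nonneg_right (le_abs_self _) (apply_nonneg _ _)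
      _ = (K (p + s) * (2 * W)) * |C (κ (p + s))| * N (σ (κ (p + s))) (b (φ k)) := by ring
      _ ≤ _ := by
        apply mul_le_mul _ (hN.mono_le (le_max_right _ _) _) (apply_nonneg _ _) (by positivity)
        have : 0 ≤ |C p| * (K (σ p) * (2 * W)) := by positivity
        linarith

/-- **The near bijection.** -/
theorem near_bij (hN : Gr N) {b b' : ℕ → X} {c c' : ℕ → X →ₗ[ℂ] ℂ}
    (hb : NAB N b c) (hb' : NAB N b' c') (hr : Rich N b) :
    ∃ (σ : ℕ → ℕ) (C : ℕ → ℝ) (h : ℕ ≃ ℕ), (∀ p, 0 ≤ C p) ∧ ∀ k, NearN N σ C (b' k) (b (h k)) := by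
  obtain ⟨σ1, C1, φ, hφ, h1⟩ := inj_in hN hb hb' hr
  obtain ⟨σ2, C2, ψ, hψ, h2⟩ := inj_out hN hb hb' hr
  set σ : ℕ → ℕ := fun p => max (σ1 p) (σ2 p) with hσ
  set C : ℕ → ℝ := fun p => |C1 p| + |C2 p| with hC
  have a1 : ∀ k, NearN N σ C (b' k) (b (φ k)) := by
    intro k p
    have hle : ∀ x : X, C1 p * N (σ1 p) x ≤ C p * N (σ p) x := by
      intro x
      apply mul_le_mul _ (hN.mono_le (le_max_left _ _) _) (apply_nonneg _ _) (by positivity)
      have := le_abs_self (C1 p)
      have := abs_nonneg (C2 p)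
      simp only [hC]
      linarith
    exact ⟨(h1 k p).1.trans (hle _), (h1 k p).2.trans (hle _)⟩
  have a2 : ∀ i, NearN N σ C (b' (ψ i)) (b i) := by
    intro i p
    have hle : ∀ x : X, C2 p * N (σ2 p) x ≤ C p * N (σ p) x := by
      intro x
      apply mul_le_mul _ (hN.mono_le (le_max_right _ _) _) (apply_nonneg _ _) (by positivity)
      have := le_abs_self (C2 p)
      have := abs_nonneg (C1 p)
      simp only [hC]
      linarith
    exact ⟨(h2 i p).2.trans (hle _), (h2 i p).1.trans (hle _)⟩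
  obtain ⟨h, hbij, hrel⟩ := Function.Embedding.schroeder_bernstein_of_rel hφ hψ
    (fun k i => NearN N σ C (b' k) (b i)) a1 a2
  exact ⟨σ, C, Equiv.ofBijective h hbij, fun p => by positivity, hrel⟩

end QE
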