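import Pool.Agent.Lib_helper79.QE.Core3

/-!
Quasi-equivalence, core, part 4: the isomorphism; general absolute bases.
-/

open Filter Topology

namespace QE

variable {X : Type*} [AddCommGroup X] [Module ℂ X] {N : ℕ → Seminorm ℂ X}

/-- A vector is determined by its coefficients. -/
lemma NAB.ext (hN : Gr N) {b : ℕ → X} {c : ℕ → X →ₗ[ℂ] ℂ} (hb : NAB N b c) {x y : X}
    (h : ∀ i, c i x = c i y) : x = y := by
  have h1 := hb.exp (x - y) 0
  have h2 : ∀ n, ∑ i ∈ Finset.range n, c i (x - y) • b i = 0 := by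
    intro n
    apply Finset.sum_eq_zero
    intro i _
    rw [map_sub, h i, sub_self, zero_smul]
  simp only [h2, sub_zero] at h1
  have h3 : N 0 (x - y) = 0 := tendsto_nhds_unique tendsto_const_nhds h1
  exact sub_eq_zero.1 (hN.pos _ h3)

/-- Existence of vectors with prescribed coefficients, with norm estimate. -/
lemma NAB.exists_vec (hN : Gr N) {b : ℕ → X} {c : ℕ → X →ₗ[ℂ] ℂ} (hb : NAB N b c) (a : ℕ → ℂ)
    (ha : ∀ q, Summable fun i => ‖a i‖ * N q (b i)) :
    ∃ y, (∀ i, c i y = a i) ∧ ∀ q, N q y ≤ ∑' i, ‖a i‖ * N q (b i) := by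
  obtain ⟨y, hy⟩ := hN.comp (fun i => a i • b i) (fun q => by
    refine (ha q).congr fun i => ?_
    rw [map_smul_eq_mul])
  refine ⟨y, fun i => ?_, fun q => ?_⟩
  · obtain ⟨q, C, hC, hcoef⟩ := hb.coef
    have h1 := (hy q).const_mul C
    rw [mul_zero] at h1
    have h2 : Tendsto (fun n => c i (y - ∑ j ∈ Finset.range n, a j • b j)) atTop (𝓝 0) :=
      squeeze_zero_norm (fun n => hcoef i _) h1
    have h3 : ∀ᶠ n in atTop, c i (y - ∑ j ∈ Finset.range n, a j • b j) = c i y - a i := by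
      filter_upwards [eventually_gt_atTop i] with n hn
      rw [map_sub, map_sum]
      congr 1
      rw [Finset.sum_eq_single i]
      · rw [map_smul, hb.dual]; simp
      · intro j _ hj
        rw [map_smul, hb.dual, if_neg (fun h => hj h.symm), smul_zero]
      · intro h; exact absurd (Finset.mem_range.2 hn) h
    have h4 := tendsto_nhds_unique (tendsto_const_nhds.congr' (h3.mono fun n hn => hn.symm)) h2
    exact sub_eq_zero.1 h4
  · have h1 := (hy q).add_const (∑' i, ‖a i‖ * N q (b i))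
    rw [zero_add] at h1
    refine ge_of_tendsto' h1 fun n => ?_
    have e : y = (y - ∑ j ∈ Finset.range n, a j • b j) + ∑ j ∈ Finset.range n, a j • b j := by abel
    calc N q y = N q ((y - ∑ j ∈ Finset.range n, a j • b j) + ∑ j ∈ Finset.range n, a j • b j) := by
          rw [← e]
      _ ≤ N q (y - ∑ j ∈ Finset.range n, a j • b j) + N q (∑ j ∈ Finset.range n, a j • b j) :=
        map_add_le_add _ _ _
      _ ≤ _ := by
        gcongr
        refine (Finset.le_sum_of_subadditive (N q) (map_zero _).le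
          (fun x y => map_add_le_add _ x y) _ _).trans ?_
        have e2 : ∀ i ∈ Finset.range n, N q (a i • b i) = ‖a i‖ * N q (b i) :=
          fun i _ => map_smul_eq_mul _ _ _
        rw [Finset.sum_congr rfl e2]
        exact (ha q).sum_le_tsum _ (fun i _ => by positivity)

/-- One half of the isomorphism: the map `b' k ↦ b (h k)` exists as a bounded linear map. -/
lemma exists_map (hN : Gr N) {b b' : ℕ → X} {c c' : ℕ → X →ₗ[ℂ] ℂ}
    (hb : NAB N b c) (hb' : NAB N b' c') {σ : ℕ → ℕ} {C : ℕ → ℝ} (h : ℕ ≃ ℕ) (hC : ∀ p, 0 ≤ C p)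
    (hn : ∀ k p, N p (b (h k)) ≤ C p * N (σ p) (b' k)) :
    ∃ T : X →ₗ[ℂ] X, (∀ x k, c (h k) (T x) = c' k x) ∧
      ∀ p, ∃ q, ∃ K : ℝ, ∀ x, N p (T x) ≤ K * N q x := by
  have hsum : ∀ x q, Summable fun i => ‖c' (h.symm i) x‖ * N q (b i) := by
    intro x q
    have h1 : Summable fun k => ‖c' k x‖ * N q (b (h k)) := by
      have h2 := (hb'.abs_summable hN x (σ q)).mul_left (C q)
      refine Summable.of_nonneg_of_le (fun k => by positivity) (fun k => ?_) h2
      calc ‖c' k x‖ * N q (b (h k)) ≤ ‖c' k x‖ * (C q * N (σ q) (b' k)) :=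
            mul_le_mul_of_nonneg_left (hn k q) (norm_nonneg _)
        _ = _ := by ring
    have h3 := (Equiv.summable_iff h.symm).2 h1
    refine h3.congr fun i => ?_
    simp [Function.comp]
  have hex := fun x => hb.exists_vec hN (fun i => c' (h.symm i) x) (hsum x)
  choose T hT hTn using hex
  have hT' : ∀ x k, c (h k) (T x) = c' k x := by
    intro x k
    rw [hT x (h k)]
    simp
  refine ⟨⟨⟨T, ?_⟩, ?_⟩, hT', ?_⟩
  · intro x y
    apply hb.ext hN
    intro i
    rw [map_add, hT, hT, hT, map_add]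
  · intro a x
    apply hb.ext hN
    intro i
    show c i (T (a • x)) = c i (a • T x)
    rw [map_smul, hT, hT, map_smul]
  · intro p
    obtain ⟨v, hv⟩ := hb'.summable
    obtain ⟨q, C', hC', hbd⟩ := hb'.bdd' (σ p + v)
    refine ⟨q, C p * C' * ∑' k, (N v (b' k))⁻¹, fun x => ?_⟩
    refine (hTn x p).trans ?_
    have e1 : ∑' i, ‖c' (h.symm i) x‖ * N p (b i) = ∑' k, ‖c' k x‖ * N p (b (h k)) := by
      rw [← Equiv.tsum_eq h]
      simp
    rw [e1]
    have hs2 : Summable fun k => (C p * C' * N q x) * (N v (b' k))⁻¹ := hv.mul_left _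
    have hs1 : Summable fun k => ‖c' k x‖ * N p (b (h k)) := by
      have := (Equiv.summable_iff h).2 (hsum x p)
      refine this.congr fun k => ?_
      simp [Function.comp]
    have hle : ∀ k, ‖c' k x‖ * N p (b (h k)) ≤ (C p * C' * N q x) * (N v (b' k))⁻¹ := by
      intro k
      have p1 := hN.one_le (hb'.one k) v
      have p2 : 0 < N v (b' k) := by linarith
      rw [← div_eq_mul_inv, le_div_iff₀ p2]
      have m := hN.mul_le (hb'.one k) (σ p) v
      have hCp := hC p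
      calc ‖c' k x‖ * N p (b (h k)) * N v (b' k)
          ≤ ‖c' k x‖ * (C p * N (σ p) (b' k)) * N v (b' k) := by
            apply mul_le_mul_of_nonneg_right _ p2.le
            exact mul_le_mul_of_nonneg_left (hn k p) (norm_nonneg _)
        _ = C p * (‖c' k x‖ * (N (σ p) (b' k) * N v (b' k))) := by ring
        _ ≤ C p * (‖c' k x‖ * N (σ p + v) (b' k)) := by
            apply mul_le_mul_of_nonneg_left _ hCp
            exact mul_le_mul_of_nonneg_left m (norm_nonneg _)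
        _ ≤ C p * (C' * N q x) := mul_le_mul_of_nonneg_left (hbd k x) hCp
        _ = _ := by ring
    calc ∑' k, ‖c' k x‖ * N p (b (h k)) ≤ ∑' k, (C p * C' * N q x) * (N v (b' k))⁻¹ :=
          hs1.tsum_le_tsum hle hs2
      _ = C p * C' * N q x * ∑' k, (N v (b' k))⁻¹ := tsum_mul_left
      _ = _ := by ring

/-- The core theorem for normalised bases. -/
theorem core_nab (hN : Gr N) {b b' : ℕ → X} {c c' : ℕ → X →ₗ[ℂ] ℂ}
    (hb : NAB N b c) (hr : Rich N b) (hb' : NAB N b' c') :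
    ∃ (h : ℕ ≃ ℕ) (T : X ≃ₗ[ℂ] X),
      (∀ p, ∃ q, ∃ C : ℝ, ∀ x, N p (T x) ≤ C * N q x) ∧
      (∀ p, ∃ q, ∃ C : ℝ, ∀ x, N p (T.symm x) ≤ C * N q x) ∧
      ∀ k, T (b' k) = b (h k) := by
  obtain ⟨σ, C, h, hC, hn⟩ := near_bij hN hb hb' hr
  obtain ⟨T, hT, hTb⟩ := exists_map hN hb hb' h hC (fun k p => (hn k p).1)
  obtain ⟨S, hS, hSb⟩ := exists_map hN hb' hb h.symm hC (fun i p => by
    have := (hn (h.symm i) p).2
    simpa using this)
  have h1 : ∀ x, S (T x) = x := by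
    intro x
    apply hb'.ext hN
    intro k
    have := hS (T x) (h k)
    rw [h.symm_apply_apply] at this
    rw [this, hT]
  have h2 : ∀ x, T (S x) = x := by
    intro x
    apply hb.ext hN
    intro i
    have := hT (S x) (h.symm i)
    rw [h.apply_symm_apply] at this
    rw [this]
    exact hS x i
  refine ⟨h, LinearEquiv.ofLinearMap T S (by ext x; exact h2 x) (by ext x; exact h1 x), hTb, hSb, ?_⟩
  intro k
  show T (b' k) = b (h k)
  apply hb.ext hN
  intro i
  obtain ⟨l, rfl⟩ := h.surjective i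
  rw [hT, hb'.dual, hb.dual]
  simp

/-- Normalisation of an absolute basis. -/
lemma AB.normalise (hN : Gr N) {b : ℕ → X} {c : ℕ → X →ₗ[ℂ] ℂ} (hb : AB N b c) :
    NAB N (fun i => ((N 0 (b i) : ℂ))⁻¹ • b i) (fun i => (N 0 (b i) : ℂ) • c i) := by
  have hpos : ∀ i, 0 < N 0 (b i) := fun i => hN.pos' (hb.ne_zero i) 0
  have hne : ∀ i, (N 0 (b i) : ℂ) ≠ 0 := fun i => by exact_mod_cast (hpos i).ne'
  have hnorm : ∀ i, ‖((N 0 (b i) : ℂ))⁻¹‖ = (N 0 (b i))⁻¹ := fun i => by
    rw [norm_inv, Complex.norm_real, Real.norm_of_nonneg (hpos i).le]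
  have hnorm' : ∀ i, ‖(N 0 (b i) : ℂ)‖ = N 0 (b i) := fun i => by
    rw [Complex.norm_real, Real.norm_of_nonneg (hpos i).le]
  refine ⟨⟨?_, ?_, ?_, ?_⟩, ?_⟩
  · intro i j
    simp only [LinearMap.smul_apply, map_smul, smul_eq_mul, hb.dual]
    by_cases h : i = j
    · subst h
      simp [hne i]
    · simp [h]
  · intro p
    obtain ⟨q, C, h⟩ := hb.bdd p
    refine ⟨q, C, fun i x => ?_⟩
    simp only [LinearMap.smul_apply, smul_eq_mul, norm_mul, map_smul_eq_mul, hnorm, hnorm']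
    have e : N 0 (b i) * ‖c i x‖ * ((N 0 (b i))⁻¹ * N p (b i)) = ‖c i x‖ * N p (b i) := by
      have := (hpos i).ne'
      field_simp
    rw [e]
    exact h i x
  · obtain ⟨v, hv⟩ := hb.nuc
    refine ⟨v, hv.congr fun i => ?_⟩
    simp only [map_smul_eq_mul, hnorm]
    have h1 := (hpos i).ne'
    have h2 : N v (b i) ≠ 0 := (hN.pos' (hb.ne_zero i) v).ne'
    field_simp
  · intro x q
    refine (hb.exp x q).congr fun n => ?_
    congr 2
    refine Finset.sum_congr rfl fun i _ => ?_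
    simp only [LinearMap.smul_apply, smul_eq_mul, smul_smul]
    congr 1
    field_simp [hne i]
  · intro i
    simp only [map_smul_eq_mul, hnorm]
    exact inv_mul_cancel₀ (hpos i).ne'

lemma R_smul {a : ℂ} (ha : a ≠ 0) (q : ℕ) (x : X) : R N q (a • x) = R N q x := by
  unfold R
  rw [map_smul_eq_mul, map_smul_eq_mul, mul_div_mul_left _ _ (norm_ne_zero_iff.2 ha)]

lemma Near_smul {σ : ℕ → ℕ} {C : ℕ → ℝ} {a a' : ℂ} (ha : a ≠ 0) (ha' : a' ≠ 0) (x y : X) :
    Near N σ C (a • x) (a' • y) ↔ Near N σ C x y := by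
  unfold Near
  simp only [R_smul ha, R_smul ha']

lemma Rich.smul {b : ℕ → X} (hr : Rich N b) {a : ℕ → ℂ} (ha : ∀ i, a i ≠ 0) :
    Rich N (fun i => a i • b i) := by
  obtain ⟨v, h⟩ := hr
  refine ⟨v, fun q C0 => ?_⟩
  obtain ⟨σ, C, hh⟩ := h q C0
  refine ⟨σ, C, fun i F hF => ?_⟩
  obtain ⟨G, hG, hG2⟩ := hh i F (fun j hj => by
    have := hF j hj
    simpa only [R_smul (ha _)] using this)
  exact ⟨G, hG, fun j hj => (Near_smul (ha i) (ha j) _ _).2 (hG2 j hj)⟩

/-- **The core theorem.** -/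
theorem k4_core (hN : Gr N) {b b' : ℕ → X} {c c' : ℕ → X →ₗ[ℂ] ℂ}
    (hb : AB N b c) (hr : Rich N b) (hb' : AB N b' c') :
    ∃ (σ : ℕ ≃ ℕ) (lam : ℕ → ℂ) (T : X ≃ₗ[ℂ] X), (∀ k, lam k ≠ 0) ∧
      (∀ p, ∃ q, ∃ C : ℝ, ∀ x, N p (T x) ≤ C * N q x) ∧
      (∀ p, ∃ q, ∃ C : ℝ, ∀ x, N p (T.symm x) ≤ C * N q x) ∧
      ∀ k, T (b' k) = lam k • b (σ k) := by
  have hne : ∀ i, (N 0 (b i) : ℂ) ≠ 0 := fun i => by
    exact_mod_cast (hN.pos' (hb.ne_zero i) 0).ne'
  have hne' : ∀ i, (N 0 (b' i) : ℂ) ≠ 0 := fun i => by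
    exact_mod_cast (hN.pos' (hb'.ne_zero i) 0).ne'
  obtain ⟨h, T, hT, hTs, hTb⟩ := core_nab hN (hb.normalise hN)
    (hr.smul (a := fun i => ((N 0 (b i) : ℂ))⁻¹) (fun i => inv_ne_zero (hne i))) (hb'.normalise hN)
  refine ⟨h, fun k => (N 0 (b' k) : ℂ) * ((N 0 (b (h k)) : ℂ))⁻¹, T, ?_, hT, hTs, ?_⟩
  · intro k
    exact mul_ne_zero (hne' k) (inv_ne_zero (hne _))
  · intro k
    have := hTb k
    rw [map_smul] at this
    rw [mul_smul, ← this, smul_smul, mul_inv_cancel₀ (hne' k), one_smul]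

end QE
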